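import Pool.Agent.K1H80.KA.Stm

/-!
# The Jacobian criterion over a perfect field of characteristic `p` (the easy direction)
-/

set_option autoImplicit false

namespace Pool.Agent.K1H1.KA

open MvPolynomial

/-- chain rule -/
theorem chain {K : Type} [Field K] {τ ι : Type} [Fintype ι] (g : ι → MvPolynomial τ K) (s : τ)
    (P : MvPolynomial ι K) :
    pderiv s (aeval g P) = ∑ i, aeval g (pderiv i P) * pderiv s (g i) := by
  classical
  induction P using MvPolynomial.induction_on with
  | C a =>
    simp only [aeval_C, MvPolynomial.algebraMap_eq, pderiv_C, map_zero, zero_mul,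
      Finset.sum_const_zero]
  | add p q hp hq =>
    simp only [map_add, hp, hq, add_mul, Finset.sum_add_distrib]
  | mul_X p j hp =>
    rw [map_mul, aeval_X, pderiv_mul, hp]
    have : ∀ i, aeval g (pderiv i (p * X j)) * pderiv s (g i) =
        aeval g (pderiv i p) * pderiv s (g i) * g j +
          (if i = j then aeval g p * pderiv s (g j) else 0) := by
      intro i
      rw [pderiv_mul, pderiv_X, map_add, map_mul, map_mul, aeval_X]
      by_cases h : i = j
      · subst h
        rw [Pi.single_eq_same, map_one, if_pos rfl]
        ring
      · rw [Pi.single_eq_of_ne (Ne.symm h), map_zero, if_neg h]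
        ring
    simp only [this]
    rw [Finset.sum_add_distrib, Finset.sum_ite_eq' Finset.univ j, ← Finset.sum_mul]
    simp

/-- the derivative has smaller degree -/
theorem deg_pderiv {K : Type} [Field K] {ι : Type} (P : MvPolynomial ι K) (i : ι)
    (h : pderiv i P ≠ 0) : (pderiv i P).totalDegree < P.totalDegree := by
  classical
  have key : ∀ m ∈ (pderiv i P).support, (m.sum fun _ e => e) + 1 ≤ P.totalDegree := by
    intro m hm
    rw [mem_support_iff, coeff_pderiv] at hm
    have h1 : m + Finsupp.single i 1 ∈ P.support := by
      rw [mem_support_iff]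
      intro h0
      rw [h0, zero_mul] at hm
      exact hm rfl
    have h2 := le_totalDegree h1
    rw [Finsupp.sum_add_index' (fun _ => rfl) (fun _ _ _ => rfl),
      Finsupp.sum_single_index rfl] at h2
    exact h2
  obtain ⟨m, hm⟩ := support_nonempty.2 h
  have h0 : 0 < P.totalDegree := lt_of_lt_of_le (Nat.succ_pos _) (key m hm)
  rw [totalDegree]
  rw [Finset.sup_lt_iff (by simpa using h0)]
  intro m hm
  exact key m hm

/-- a polynomial whose exponents are divisible by `p` is a `p`-th power -/
theorem pth {K : Type} [Field K] (p : ℕ) [ExpChar K p] [PerfectRing K p] {ι : Type}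
    (hp : 0 < p) (P : MvPolynomial ι K) (h : ∀ d ∈ P.support, ∀ i, p ∣ d i) :
    ∃ R : MvPolynomial ι K, R ^ p = P ∧ R.totalDegree * p ≤ P.totalDegree := by
  classical
  obtain ⟨Q, hQ⟩ : ∃ Q : MvPolynomial ι K, expand p Q = P := by
    refine ⟨∑ d ∈ P.support, monomial (d.mapRange (· / p) (Nat.zero_div p)) (coeff d P), ?_⟩
    rw [map_sum]
    conv_rhs => rw [P.as_sum]
    refine Finset.sum_congr rfl fun d hd => ?_
    rw [expand_monomial]
    have hd' : p • d.mapRange (· / p) (Nat.zero_div p) = d := by
      ext i
      rw [Finsupp.smul_apply, Finsupp.mapRange_apply, smul_eq_mul]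
      exact Nat.mul_div_cancel' (h d hd i)
    rw [hd']
  refine ⟨map ((frobeniusEquiv K p).symm : K →+* K) Q, ?_, ?_⟩
  · rw [← map_frobenius_expand p, ← map_expand, hQ, map_map]
    have : (frobenius K p).comp ((frobeniusEquiv K p).symm : K →+* K) = RingHom.id K := by
      ext x
      simp
    rw [this, map_id]
  · have h1 : (map ((frobeniusEquiv K p).symm : K →+* K) Q).totalDegree ≤ Q.totalDegree := by
      rw [totalDegree, totalDegree]
      exact Finset.sup_mono (support_map_subset _ _)
    calc _ ≤ Q.totalDegree * p := Nat.mul_le_mul_right _ h1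
      _ = P.totalDegree := by rw [← hQ, totalDegree_expand]

/-- **Piece JACP.** -/
theorem jacp : Pool.Agent.KA.JACPStm := by
  classical
  intro K _ p hpF _ _ τ ι _ _ g hg
  have hp : p.Prime := hpF.out
  have : ExpChar K p := ExpChar.prime hp
  cases nonempty_fintype ι
  rw [algebraicIndependent_iff]
  have main : ∀ n : ℕ, ∀ P : MvPolynomial ι K, P.totalDegree = n → aeval g P = 0 → P = 0 := by
    intro n
    induction n using Nat.strong_induction_on with
    | _ n ih =>
      intro P hn hP
      -- the derivatives
      have h1 : ∀ i, aeval g (pderiv i P) = 0 := by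
        have h2 := Fintype.linearIndependent_iff.1 hg
          (fun i => algebraMap (MvPolynomial τ K) (FractionRing (MvPolynomial τ K))
            (aeval g (pderiv i P))) (by
          funext s
          rw [Finset.sum_apply]
          simp only [Pi.smul_apply, smul_eq_mul, ← map_mul, Pi.zero_apply]
          rw [← map_sum, ← chain g s P, hP, map_zero, map_zero])
        intro i
        have h3 := h2 i
        exact (IsFractionRing.injective (MvPolynomial τ K) (FractionRing (MvPolynomial τ K)))
          (h3.trans (map_zero _).symm)
      have h2 : ∀ i, pderiv i P = 0 := by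
        intro i
        by_contra hne
        exact hne (ih _ (hn ▸ deg_pderiv P i hne) _ rfl (h1 i))
      have h3 : ∀ d ∈ P.support, ∀ i, p ∣ d i := by
        intro d hd i
        rcases Nat.eq_zero_or_pos (d i) with h0 | h0
        · rw [h0]
          exact dvd_zero p
        · have hle : Finsupp.single i 1 ≤ d := by
            rw [Finsupp.single_le_iff]
            exact h0
          have h4 := coeff_pderiv (i := i) P (d - Finsupp.single i 1)
          rw [h2 i, coeff_zero, tsub_add_cancel_of_le hle] at h4
          have h5 : (((d - Finsupp.single i 1 : ι →₀ ℕ) i : ℕ) : K) + 1 = 0 := by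
            rcases mul_eq_zero.1 h4.symm with h | h
            · exact absurd h (mem_support_iff.1 hd)
            · exact h
          have h6 : ((d i : ℕ) : K) = 0 := by
            rw [← h5]
            have : d i = (d - Finsupp.single i 1 : ι →₀ ℕ) i + 1 := by
              rw [Finsupp.tsub_apply, Finsupp.single_eq_same]
              omega
            rw [this]
            push_cast
            rfl
          exact (CharP.cast_eq_zero_iff K p _).1 h6
      obtain ⟨R, hR, hRd⟩ := pth p hp.pos P h3
      have h4 : aeval g R = 0 := by
        have : (aeval g R) ^ p = 0 := by rw [← map_pow, hR, hP]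
        exact pow_eq_zero_iff hp.pos.ne' |>.1 this
      rcases Nat.eq_zero_or_pos P.totalDegree with h0 | h0
      · rw [totalDegree_eq_zero_iff_eq_C] at h0
        rw [h0, aeval_C, MvPolynomial.algebraMap_eq, ← C_0] at hP
        rw [h0, C_injective _ _ hP, C_0]
      · have h5 : R.totalDegree < n := by
          rw [← hn]
          rcases Nat.eq_zero_or_pos R.totalDegree with h6 | h6
          · rw [h6]
            exact h0
          · have := hp.two_le
            nlinarith
        have h6 := ih _ h5 R rfl h4
        rw [← hR, h6, zero_pow hp.pos.ne']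
  intro P hP
  exact main _ P rfl hP

end Pool.Agent.K1H1.KA
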