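import Pool.Agent.K1H80.KA.StmC

/-! RKC: rank and kernel of a matrix. -/

namespace Pool.Agent.K1H1.KA.Rkc

open Pool.Agent.KA

theorem rkc : RKCStm := by
  intro K ι τ _ _ _ M
  have h1 : Module.finrank K (LinearMap.range M.mulVecLin) +
      Module.finrank K (LinearMap.ker M.mulVecLin) = Fintype.card τ := by
    rw [LinearMap.finrank_range_add_finrank_ker, Module.finrank_fintype_fun_eq_card]
  have h2 : M.rank = Module.finrank K (LinearMap.range M.mulVecLin) := rfl
  refine ⟨fun h => ?_, fun u hu0 hu => ?_⟩
  · have hk : LinearMap.ker M.mulVecLin = ⊥ := by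
      rw [LinearMap.ker_eq_bot']
      intro u hu
      exact h u (by simpa using hu)
    rw [hk, finrank_bot] at h1
    rw [h2]; omega
  · have hk : LinearMap.ker M.mulVecLin ≠ ⊥ := by
      intro hk
      apply hu0
      have : u ∈ LinearMap.ker M.mulVecLin := by
        rw [LinearMap.mem_ker]; simpa using hu
      rw [hk] at this
      simpa using this
    have hpos : 0 < Module.finrank K (LinearMap.ker M.mulVecLin) := by
      rw [Nat.pos_iff_ne_zero]
      intro h0
      exact hk (Submodule.finrank_eq_zero.mp h0)
    rw [h2]; omega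

end Pool.Agent.K1H1.KA.Rkc
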